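import Pool.Agent.Helper69.LT.St
import Pool.Agent.Helper84.LE.M_Base
import Pool.Agent.Helper84.LE.M_Menger
import Pool.Agent.Helper84.LE.M_SD

/-!
# Project LT (MP_65faa7), module Base
-/

set_option autoImplicit false

open Pool.LE Pool.NL

namespace Pool.LT.BaseM

/-- the case `t = v`: `LE.hBase0` for a point which is only joined to `t` -/
theorem base0 (V : Type) [DecidableEq V] (ω : Finset (Sym2 V)) (t u s : V) (hdbl : dbl ω t u)
    (hs : con ω t s) : ∃ w' : V, DR [(t, [t, w'], s), (t, [u], w')] ω := by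
  classical
  obtain ⟨q0⟩ := hs
  obtain ⟨q, hq⟩ : ∃ q : (gr ω).Walk t s, q.IsPath := ⟨q0.bypass, q0.bypass_isPath⟩
  obtain ⟨P, Q, hP, hQ, hd⟩ := LE.hMenger V ω t u hdbl
  obtain ⟨z, hz, r, r', hr, hre⟩ := firstHit q.reverse
    {v | v ∈ P.support ∨ v ∈ Q.support} (Or.inl P.start_mem_support)
  have hrt : r.IsTrail := by
    have h1 : q.reverse.IsTrail := SimpleGraph.Walk.IsTrail.reverse _ hq.isTrail
    rw [hr] at h1
    exact h1.of_append_left
  have hrP : ∀ e ∈ r.edges, e ∉ P.edges := by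
    intro e he hP'
    obtain ⟨v, hv, hvS⟩ := hre e he
    exact hvS (Or.inl (mem_support_of_edge P hP' hv))
  have hrQ : ∀ e ∈ r.edges, e ∉ Q.edges := by
    intro e he hP'
    obtain ⟨v, hv, hvS⟩ := hre e he
    exact hvS (Or.inr (mem_support_of_edge Q hP' hv))
  refine ⟨z, ?_⟩
  rcases hz with hz | hz
  · exact base0_aux P Q hP hQ hd hz r hrt hrP hrQ
  · exact base0_aux Q P hQ hP (fun e h1 h2 => hd e h2 h1) hz r hrt hrQ hrP

end Pool.LT.BaseM

namespace Pool.LT

theorem hBase : SBase := by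
  intro V _ ω v u t s hBt
  obtain ⟨hdbl, hcase⟩ := hBt
  rcases hcase with ⟨rfl, hs⟩ | ⟨c, hpiv, hs⟩
  · exact BaseM.base0 V ω t u s hdbl hs
  obtain ⟨hfω, hvc, htu, hvu⟩ := hpiv
  have hct : ¬ con (ω.erase s(c, t)) t c := fun h =>
    hvu (con_trans hvc (con_trans (con_symm h) htu))
  have hdbl' : dbl (ω.erase s(c, t)) t u :=
    (LE.hSD V ω t c t u (fun h => hct h.1) htu).2.2.1 hdbl
  obtain ⟨w', hw'⟩ := BaseM.base0 V (ω.erase s(c, t)) t u s hdbl' hs
  refine ⟨w', ?_⟩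
  obtain ⟨p₁, p₂, hp₁, hp₂, hm₁, hm₂, hd⟩ := of_DR_two hw'
  -- transfer to `ω`
  have hsub : ω.erase s(c, t) ⊆ ω := Finset.erase_subset _ _
  obtain ⟨P₁, hP₁e, hP₁s, -⟩ := exists_walk_of_edges (η := ω) p₁
    (fun e he => hsub (mem_edges_gr p₁ he))
  obtain ⟨P₂, hP₂e, hP₂s, -⟩ := exists_walk_of_edges (η := ω) p₂
    (fun e he => hsub (mem_edges_gr p₂ he))
  obtain ⟨p₀'⟩ := hvc
  obtain ⟨p₀, hp₀⟩ : ∃ p : (gr (ω.erase s(c, t))).Walk v c, p.IsPath :=
    ⟨p₀'.bypass, p₀'.bypass_isPath⟩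
  obtain ⟨P₀, hP₀e, hP₀s, -⟩ := exists_walk_of_edges (η := ω) p₀
    (fun e he => hsub (mem_edges_gr p₀ he))
  have hcne : c ≠ t := by
    rintro rfl
    exact hct (con_refl _ _)
  have hadj : (gr ω).Adj c t := gr_adj.2 ⟨hfω, hcne⟩
  -- disjointness
  have hsep : ∀ e ∈ p₀.edges, ∀ x y : V, ∀ r : (gr (ω.erase s(c, t))).Walk x y,
      con (ω.erase s(c, t)) t x → e ∉ r.edges := by
    intro e he x y r hx her
    induction e using Sym2.ind with
    | _ a b =>
      have h1 : con (ω.erase s(c, t)) v a :=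
        con_of_mem_support p₀ (p₀.fst_mem_support_of_mem_edges he)
      have h2 : con (ω.erase s(c, t)) x a :=
        con_of_mem_support r (r.fst_mem_support_of_mem_edges her)
      exact hvu (con_trans h1 (con_trans (con_symm h2) (con_trans (con_symm hx) htu)))
  have hf : ∀ x y : V, ∀ r : (gr (ω.erase s(c, t))).Walk x y, s(c, t) ∉ r.edges := by
    intro x y r h
    exact (Finset.mem_erase.1 (mem_edges_gr r h)).1 rfl
  have e₁ : (P₀.append (SimpleGraph.Walk.cons hadj P₁)).edges =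
      p₀.edges ++ s(c, t) :: p₁.edges := by
    rw [SimpleGraph.Walk.edges_append, SimpleGraph.Walk.edges_cons, hP₀e, hP₁e]
  refine DR_two (c₁ := (v, [t, w'], s)) (c₂ := (t, [u], w'))
    (P₀.append (SimpleGraph.Walk.cons hadj P₁)) P₂ ?_ ?_ ?_ ?_ ?_
  · rw [SimpleGraph.Walk.isTrail_def, e₁, List.nodup_append]
    refine ⟨hp₀.isTrail.edges_nodup, List.nodup_cons.2 ⟨hf _ _ p₁, hp₁.edges_nodup⟩, ?_⟩
    intro e he e' he' hee
    subst hee
    rcases List.mem_cons.1 he' with rfl | h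
    · exact hf _ _ p₀ he
    · exact hsep e he _ _ p₁ (con_refl _ _) h
  · rw [SimpleGraph.Walk.isTrail_def, hP₂e]
    exact hp₂.edges_nodup
  · intro m hm
    rw [SimpleGraph.Walk.mem_support_append_iff]
    right
    rw [SimpleGraph.Walk.support_cons]
    refine List.mem_cons_of_mem _ ?_
    rw [hP₁s]
    exact hm₁ m hm
  · intro m hm
    rw [hP₂s]
    exact hm₂ m hm
  · intro e he he'
    rw [e₁, List.mem_append, List.mem_cons] at he
    rw [hP₂e] at he'
    rcases he with h | rfl | h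
    · exact hsep e h _ _ p₂ (con_refl _ _) he'
    · exact hf _ _ p₂ he'
    · exact hd e h he'

end Pool.LT
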